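import Pool.Agent.H53_Strange.Main

/-!
# Strange orbits in `sl_n`: a class of strange nilpotent orbits closed under powers
-/

set_option autoImplicit false

namespace Pool.Agent.Results.MP_356fce_al.ClassC

open Strange53 LieAlgebra.SpecialLinear

/-- **A class of strange nilpotent orbits.** If the nilpotent `e ∈ sl_n` is in the class `InC`, then
the orbit of every element of the centre of the centraliser of `e`, in particular of `e`, is
strange (over every field of characteristic 0). -/
theorem result (k : Type) [Field k] [CharZero k] (n : ℕ) (e : sl (Fin n) k)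
    (he : IsNilpotent e.1) (hc : InC e.1) (e' : sl (Fin n) k)
    (hz : ∀ y : sl (Fin n) k, ⁅e, y⁆ = 0 → ⁅e', y⁆ = 0) : Strange k e' := by
  rcases Nat.eq_zero_or_pos n with hn | hn
  · subst hn
    rw [strange_iff]
    have h0 : fe e'.1 = 0 := Subsingleton.elim _ _
    rw [h0]
    exact SG_zero
  rw [strange_iff]
  refine q1_gl (nilp_fe he) (comm_of_centre hn.ne' hz) ?_
    (fun j hj => classC_pow (nilp_fe he) ((inC_iff _).1 hc) (by omega))
    (strange_of_classC (nilp_fe he) ((inC_iff _).1 hc))
  rw [trace_fe, trace_val]

end Pool.Agent.Results.MP_356fce_al.ClassC
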