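import Pool.Agent.H53_Strange.Sharp

/-!
# The gap theorem for strange orbits in `sl_n`
-/

set_option autoImplicit false

namespace Pool.Agent.Results.MP_356fce_al.Gap

open Strange53 LieAlgebra.SpecialLinear

/-- **The gap theorem**: the centraliser of a strange element of `sl_n` has the minimal dimension
`n - 1` (the element is regular), or its dimension is at least `2 n - 4` (for odd `n`), at least
`2 n - 3` (for even `n`); both bounds are attained by nilpotent elements, for all `n ≥ 4`. -/
theorem result (k : Type) [Field k] [IsAlgClosed k] [CharZero k] (n : ℕ) :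
    (∀ x : sl (Fin n) k, Strange k x →
      (Module.finrank k (centr k x) + 1 = n ∧ (IsNilpotent x.1 → x.1.rank + 1 = n)) ∨
        2 * n ≤ Module.finrank k (centr k x) + 3 + n % 2) ∧
    (4 ≤ n → ∃ e : sl (Fin n) k, IsNilpotent e.1 ∧ Strange k e ∧
      2 * n = Module.finrank k (centr k e) + 3 + n % 2) :=
  ⟨fun _ hs => gap_sl_parity hs, sharp_sl⟩

end Pool.Agent.Results.MP_356fce_al.Gap
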