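import Pool.Agent.H53_Strange.Main

/-!
# Strange orbits in `sl_n`: two Jordan blocks
-/

set_option autoImplicit false

namespace Pool.Agent.Results.MP_356fce_al.TwoBlocks

open Strange53 LieAlgebra.SpecialLinear

/-- **Two Jordan blocks**: the orbit of a nilpotent element of `sl_n` with exactly two Jordan
blocks is strange if and only if the sizes of the blocks differ by at most 3 (for the sizes `a ≥ b`,
`a + b = n`, the condition `a ≤ b + 3` is `a ≤ (n + 3) / 2`). -/
theorem result (k : Type) [Field k] [IsAlgClosed k] [CharZero k] (n : ℕ) (e : sl (Fin n) k)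
    (he : IsNilpotent e.1) (hr : e.1.rank + 2 = n) :
    Strange k e ↔ e.1 ^ ((n + 3) / 2) = 0 :=
  two_sl he hr

end Pool.Agent.Results.MP_356fce_al.TwoBlocks
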