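import Pool.Agent.H53_Strange.Main

/-!
# Strange orbits through the centre of a nilpotent centraliser in `sl_n`

The centraliser of `e` in `sl_n` is `centr k e`; the condition on `e'` says that `e'` commutes with
the centraliser of `e` (for `y = e` it says that `e'` is in the centraliser), so `e'` is in the
centre of the centraliser.
-/

set_option autoImplicit false

namespace Pool.Agent.Results.MP_356fce_al.TypeA

open Strange53 LieAlgebra.SpecialLinear

/-- **Q1 for `sl_n`** in many cases, among them all `n ≤ 10` -/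
theorem result (k : Type) [Field k] [IsAlgClosed k] [CharZero k] (n : ℕ) (e e' : sl (Fin n) k)
    (he : IsNilpotent e.1) (hs : Strange k e)
    (hz : ∀ y : sl (Fin n) k, ⁅e, y⁆ = 0 → ⁅e', y⁆ = 0)
    (hc : n ≤ 10 ∨ n ≤ e.1.rank + 2 ∨ ∀ j, 2 ≤ j → InC (e.1 ^ j)) :
    Strange k e' := by
  refine q1_sl he hs hz ?_
  rcases hc with h | h | h
  · exact Or.inr (Or.inr (Or.inl h))
  · exact Or.inr (Or.inr (Or.inr (Or.inl h)))
  · exact Or.inl h

end Pool.Agent.Results.MP_356fce_al.TypeA
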